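import Pool.Agent.H448R2.GC.F2
import Pool.Agent.H601R2.MoebMom

set_option autoImplicit false

/-!
Lower bounds for all absolute moments of order at least two of the normalised Moebius sum `Z_X`.
-/

namespace Pool.Agent.Results.MP_4f18df_nt.MomentsBelow

/-- `M(x;H)`, the sum of `μ(n)` over the positive integers `n` with `|n - x| < H/2`
(for `x, H > 0` these `n` are at most `⌈x + H⌉`, and `μ(0) = 0`). -/
noncomputable def M (x H : ℝ) : ℝ :=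
  ∑ n ∈ (Finset.range (⌈x + H⌉₊ + 1)).filter (fun n : ℕ => |(n : ℝ) - x| < H / 2),
    ((ArithmeticFunction.moebius n : ℤ) : ℝ)

/-- `Z = M(x;H) / sqrt (H / ζ(2))`, `ζ(2) = π^2/6`. -/
noncomputable def Z (x H : ℝ) : ℝ := M x H / Real.sqrt (H / (Real.pi ^ 2 / 6))

/-- For `0 ≤ θ₁ < θ₂ < 1` with `1/(1-θ₁) + 1 < 1/(1-θ₂)` there are `c > 0` and `C` such that for all
`X₀ ≥ C` there are `X ∈ [X₀, X₀^C]` and `H` with `X^θ₁ < H < X^θ₂` such that for every real `p ≥ 2` the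
`p`-th absolute moment of `Z`, for `x` uniform in `[X, 2X]`, is at least `c^p`. -/
theorem result (θ₁ θ₂ : ℝ) (h1 : 0 ≤ θ₁) (h12 : θ₁ < θ₂) (h2 : θ₂ < 1)
    (h : 1 / (1 - θ₁) + 1 < 1 / (1 - θ₂)) :
    ∃ c C : ℝ, 0 < c ∧ 1 ≤ C ∧ ∀ X₀ : ℝ, C ≤ X₀ → ∃ X H : ℝ,
      X₀ ≤ X ∧ X ≤ X₀ ^ C ∧ X ^ θ₁ < H ∧ H < X ^ θ₂ ∧
      ∀ p : ℝ, 2 ≤ p → c ^ p ≤ (1 / X) * ∫ x in X..2 * X, |Z x H| ^ p := by
  obtain ⟨c, C, hc, hC, hX⟩ := Pool.Agent.H448R2.GC.theta θ₁ θ₂ h1 h12 h2 h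
  have hz : (0 : ℝ) < Real.pi ^ 2 / 6 := by positivity
  have hcz : 0 < c * (Real.pi ^ 2 / 6) := by positivity
  refine ⟨Real.sqrt (c * (Real.pi ^ 2 / 6)), C, Real.sqrt_pos.2 hcz, hC, fun X₀ hX₀ => ?_⟩
  obtain ⟨X, H, a1, a2, a3, a4, a5⟩ := hX X₀ hX₀
  have hX0 : 0 < X := by linarith
  have hH0 : 0 < H := lt_trans (Real.rpow_pos_of_pos hX0 _) a3
  refine ⟨X, H, a1, a2, a3, a4, fun p hp => ?_⟩
  have hV : c * H ≤ (1 / X) * ∫ x in X..2 * X, Pool.Agent.H601R2.MoebMom.M x H ^ 2 := a5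
  have key := Pool.Agent.H601R2.MoebMom.moment_ge X H (p / 2) c (Real.pi ^ 2 / 6) hX0 hH0
    (by linarith) hc hz hV
  have e1 : Real.sqrt (c * (Real.pi ^ 2 / 6)) ^ p = (c * (Real.pi ^ 2 / 6)) ^ (p / 2) := by
    rw [Real.sqrt_eq_rpow, ← Real.rpow_mul hcz.le]
    congr 1
    ring
  have e2 : ∀ x : ℝ, |Z x H| ^ p =
      (Pool.Agent.H601R2.MoebMom.M x H ^ 2 / (H / (Real.pi ^ 2 / 6))) ^ (p / 2) := by
    intro x
    have h3 : Pool.Agent.H601R2.MoebMom.M x H ^ 2 / (H / (Real.pi ^ 2 / 6)) = |Z x H| ^ (2 : ℝ) := by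
      have h4 : |Z x H| ^ (2 : ℝ) = |Z x H| ^ 2 := by
        rw [← Real.rpow_natCast]; norm_num
      rw [h4, sq_abs]
      unfold Z
      rw [div_pow, Real.sq_sqrt (by positivity)]
      rfl
    rw [h3, ← Real.rpow_mul (abs_nonneg _)]
    congr 1
    ring
  rw [e1]
  simp only [e2]
  exact key

end Pool.Agent.Results.MP_4f18df_nt.MomentsBelow
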